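import Pool.Agent.Work.MP_a392d0_lc_h82.M1b
import Mathlib.Tactic

/-!
Block M1: the existence of infinite runs of boolean transition systems is `PSPACE`-hard.
-/

namespace Pool.Agent.Work.MP_a392d0_lc.M1

open Pool.Agent.Work.TMLib Turing Polynomial StateTransition

set_option linter.style.haveILetI false

section Run

variable {K : Type} [DecidableEq K] {Γ : K → Type} {Λ σ : Type} (M : Λ → TM2.Stmt Γ Λ σ)

theorem run_prefix {m : ℕ} {c c' : TM2.Cfg Γ Λ σ}
    (h : (flip bind (TM2.step M))^[m] (some c) = some c') {t : ℕ} (ht : t ≤ m) :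
    (flip bind (TM2.step M))^[t] (some c) = some ((stepH M)^[t] c) := by
  obtain ⟨r, rfl⟩ := Nat.exists_eq_add_of_le ht
  rw [Nat.add_comm, Function.iterate_add_apply] at h
  cases hd : (flip bind (TM2.step M))^[t] (some c) with
  | none => rw [hd, iterate_bind_none] at h; simp at h
  | some d => rw [stepH_iterate_of_eval M t c d hd]

theorem run_ne_none {m : ℕ} {c c' : TM2.Cfg Γ Λ σ}
    (h : (flip bind (TM2.step M))^[m] (some c) = some c') {t : ℕ} (ht : t < m) :
    ((stepH M)^[t] c).l ≠ none := by
  intro h0
  have h1 := run_prefix M h ht.le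
  have h2 := run_prefix M h (show t + 1 ≤ m from ht)
  rw [Function.iterate_succ_apply', h1] at h2
  have h3 : flip bind (TM2.step M) (some ((stepH M)^[t] c)) = TM2.step M ((stepH M)^[t] c) := rfl
  rw [h3] at h2
  cases h4 : (stepH M)^[t] c with
  | mk l v S =>
    rw [h4] at h2 h0
    simp only at h0
    subst h0
    simp [TM2.step] at h2

theorem run_inj {m : ℕ} {c c' : TM2.Cfg Γ Λ σ}
    (h : (flip bind (TM2.step M))^[m] (some c) = some c') (hc' : c'.l = none) (i j : ℕ)
    (hi : i ≤ m) (hj : j ≤ m) (hij : (stepH M)^[i] c = (stepH M)^[j] c) : i = j := by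
  have hm : (stepH M)^[m] c = c' := stepH_iterate_of_eval M m c c' h
  have key : ∀ i j, i < j → j ≤ m → (stepH M)^[i] c = (stepH M)^[j] c → False := by
    intro i j hlt hj hij
    have h1 : (stepH M)^[m - j + i] c = (stepH M)^[m - j + j] c := by
      rw [Function.iterate_add_apply, Function.iterate_add_apply, hij]
    rw [Nat.sub_add_cancel hj, hm] at h1
    have h2 := run_ne_none M h (show m - j + i < m by omega)
    rw [h1] at h2
    exact h2 hc'
  rcases lt_trichotomy i j with h1 | h1 | h1
  · exact (key i j h1 hj hij).elim
  · exact h1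
  · exact (key j i h1 hi hij.symm).elim

theorem run_halted {m t : ℕ} {c c' : TM2.Cfg Γ Λ σ}
    (h : (flip bind (TM2.step M))^[m] (some c) = some c') (hc' : c'.l = none)
    (ht : ((stepH M)^[t] c).l = none) : (stepH M)^[t] c = c' := by
  have hm : (stepH M)^[m] c = c' := stepH_iterate_of_eval M m c c' h
  have h1 : (stepH M)^[m + t] c = (stepH M)^[t] c := by
    rw [Function.iterate_add_apply, stepH_halted M _ ht]
  have h2 : (stepH M)^[t + m] c = c' := by
    rw [Function.iterate_add_apply, hm, stepH_halted M _ hc']
  rw [← h1, Nat.add_comm, h2]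

theorem run_ge {m t : ℕ} {c c' : TM2.Cfg Γ Λ σ}
    (h : (flip bind (TM2.step M))^[m] (some c) = some c') (hc' : c'.l = none) (ht : m ≤ t) :
    (stepH M)^[t] c = c' := by
  obtain ⟨r, rfl⟩ := Nat.exists_eq_add_of_le ht
  have hm : (stepH M)^[m] c = c' := stepH_iterate_of_eval M m c c' h
  rw [Nat.add_comm, Function.iterate_add_apply, hm, stepH_halted M _ hc']

end Run

/-- A bound for the indices. -/
def litSum (cl : Cl) : ℕ := (cl.flatMap fun c => c.map fun l => l.2.1 + 1).sum

theorem PolyF.litSum {α : Type} [DE α] {cl : α → Cl} (h : PolyF cl) :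
    PolyF (fun a => M1.litSum (cl a)) := by
  unfold M1.litSum
  refine PolyF.sum (PolyF.flatMap (l := cl) (f := fun _ c => c.map fun l => l.2.1 + 1) h ?_)
  exact PolyF.map (l := fun p : α × List Lit => p.2) (f := fun _ l => l.2.1 + 1)
    (by fun_prop) (by fun_prop)

theorem bdd_litSum (cl : Cl) : Bdd (litSum cl + 1) cl := by
  intro c hc l hl
  have h1 : l.2.1 + 1 ≤ litSum cl := by
    refine List.single_le_sum (fun _ _ => Nat.zero_le _) _ ?_
    rw [List.mem_flatMap]
    exact ⟨c, hc, List.mem_map.2 ⟨l, hl, rfl⟩⟩
  omega

theorem mod_succ_of_lt {r m : ℕ} (h : r % (m + 1) < m) : (r + 1) % (m + 1) = r % (m + 1) + 1 := by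
  rw [Nat.add_mod]
  rcases Nat.eq_zero_or_pos m with rfl | hm
  · omega
  · rw [Nat.mod_eq_of_lt (show 1 < m + 1 by omega)]
    exact Nat.mod_eq_of_lt (by omega)

theorem mod_succ_of_eq {r m : ℕ} (h : r % (m + 1) = m) : (r + 1) % (m + 1) = 0 := by
  rw [← Nat.dvd_iff_mod_eq_zero]
  have h1 := Nat.div_add_mod r (m + 1)
  rw [h] at h1
  exact ⟨r / (m + 1) + 1, by rw [Nat.mul_add, Nat.mul_one]; linarith⟩

/-- **Block M1.** -/
theorem _root_.Pool.Agent.Work.MP_a392d0_lc.stmt_M1 : Stmt_M1 := by
  classical
  intro L hL
  obtain ⟨⟨tm, ia, oa⟩, p, hfin, hout⟩ := hL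
  simp only at hfin hout
  letI : DecidableEq tm.K := tm.kDecidableEq
  letI : Fintype tm.K := tm.kFin
  letI : Fintype tm.Λ := tm.ΛFin
  letI : Fintype tm.σ := tm.σFin
  letI : ∀ k, Fintype (tm.Γ k) := fun k => Fintype.ofFinite _
  obtain ⟨code, hcode⟩ := exists_injective_nat (Kind tm.Γ tm.Λ tm.σ)
  set b : ℕ := (Finset.univ : Finset tm.Λ).sup (fun l => npop (tm.m l)) with hbdef
  have hb : ∀ l, npop (tm.m l) ≤ b := fun l =>
    Finset.le_sup (f := fun l => npop (tm.m l)) (Finset.mem_univ l)
  set s0 : ℕ := code (.inl (some tm.main, tm.initialState)) with hs0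
  set es : List ℕ := ((Finset.univ : Finset tm.K).erase tm.k₀).toList.map fun k =>
    code (.inr ⟨k, none⟩) with hes
  set es' : List ℕ := (Finset.univ : Finset tm.K).toList.map fun k =>
    code (.inr ⟨k, none⟩) with hes'
  set c0 : ℕ := code (.inr ⟨tm.k₀, some (ia.symm false)⟩) with hc0
  set c1 : ℕ := code (.inr ⟨tm.k₀, some (ia.symm true)⟩) with hc1
  set d : ℕ := code (.inr ⟨tm.k₀, none⟩) with hd
  set o0 : ℕ := code (.inr ⟨tm.k₁, some (oa.symm false)⟩) with ho0
  set qs : List ℕ := o0 :: (Finset.univ : Finset (tm.Λ × tm.σ)).toList.map fun x =>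
    code (.inl (some x.1, x.2)) with hqs
  set CB : ℕ := (Finset.univ : Finset (Kind tm.Γ tm.Λ tm.σ)).sup code + 1 with hCBdef
  have hCB : ∀ κ, code κ < CB := fun κ =>
    Nat.lt_succ_of_le (Finset.le_sup (f := code) (Finset.mem_univ κ))
  set N : List Bool → ℕ := fun w => p.eval w.length + 1 with hN
  set H : List Bool → ℕ := fun w => N w + b with hH
  set T : List Bool → ℕ := fun w => H w * CB with hT
  set cl : List Bool → Cl := fun w => transCl (templs tm.m b code) (H w) ++
    (bdCl es' (N w) b ++ (clkCl (T w) ++ (initCl s0 es c0 c1 d w (H w) ++ haltCl qs))) with hcl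
  have hN' : PolyF N := by
    simp only [hN]
    fun_prop
  have hH' : PolyF H := by
    simp only [hH]
    fun_prop
  have hT' : PolyF T := by
    simp only [hT]
    fun_prop
  have hcl' : PolyF cl := by
    refine PolyF.append (PolyF.transCl _ hH') (PolyF.append (PolyF.bdCl _ _ hN')
      (PolyF.append (PolyF.clkCl hT') (PolyF.append (PolyF.initCl _ _ _ _ _ PolyF.id hH') ?_)))
    exact PolyF.const _
  refine ⟨fun w => litSum (cl w) + 1, cl, ?_, hcl', fun w =>
    ⟨Nat.le_add_left 1 _, bdd_litSum _, ?_⟩⟩
  · have := PolyF.litSum hcl'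
    fun_prop
  · obtain ⟨⟨b', hb', ⟨m, hm⟩⟩, hsp⟩ := hout w
    set I := initList tm (w.map ia.invFun) with hI
    set E := haltList tm [oa.invFun b'] with hE
    have hm' : (flip bind (TM2.step tm.m))^[m] (some I) = some E := hm
    have hEl : E.l = none := rfl
    have hcell : ∀ i : ℕ, (I.stk tm.k₀)[i]? =
        if i < w.length then some (ia.symm (w.getD i false)) else none := by
      intro i
      rw [hI, initList_stk_self, List.getElem?_map]
      by_cases h : i < w.length
      · rw [if_pos h]
        simp [h]
      · rw [if_neg h]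
        simp
        omega
    have hcode_cell : ∀ i : ℕ, code (.inr ⟨tm.k₀, (I.stk tm.k₀)[i]?⟩) =
        if i < w.length then (bif w.getD i false then c1 else c0) else d := by
      intro i
      rw [hcell i]
      by_cases h : i < w.length
      · rw [if_pos h, if_pos h]
        cases w.getD i false <;> rfl
      · rw [if_neg h, if_neg h]
    have hspace : ∀ t k, (((stepH tm.m)^[t] I).stk k).length ≤ p.eval w.length := by
      intro t k
      rcases le_total t m with h | h
      · exact hsp t _ (run_prefix tm.m hm' h) k
      · rw [run_ge tm.m hm' hEl h]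
        exact hsp m _ hm k
    rw [← hb']
    constructor
    · intro hw
      set C : ℕ → TM2.Cfg tm.Γ tm.Λ tm.σ := fun t => (stepH tm.m)^[t] I with hC
      have hC1 : ∀ t, C (t + 1) = stepH tm.m (C t) := fun t =>
        Function.iterate_succ_apply' _ _ _
      have hCm : C m = E := stepH_iterate_of_eval tm.m m I E hm'
      have hmT : m < 2 ^ T w := by
        refine count_cfgs code C m hcode (by simp only [hH, hN]; omega) hCB
          (fun t _ k => (hspace t k).trans (by simp only [hH, hN]; omega)) ?_
        intro i j hi hj hij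
        exact run_inj tm.m hm' hEl i j hi hj hij
      refine ⟨fun r => st code C m (r % (m + 1)), fun r => ?_⟩
      show StepOK (cl w) (st code C m (r % (m + 1))) (st code C m ((r + 1) % (m + 1)))
      have ht : r % (m + 1) ≤ m := Nat.lt_succ_iff.1 (Nat.mod_lt _ (by omega))
      have hnext : r % (m + 1) < m → (r + 1) % (m + 1) = r % (m + 1) + 1 := fun h =>
        mod_succ_of_lt h
      have hlast : m ≤ r % (m + 1) → (r + 1) % (m + 1) = 0 := fun h =>
        mod_succ_of_eq (by omega)
      generalize (r + 1) % (m + 1) = t' at hnext hlast ⊢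
      generalize r % (m + 1) = t at ht hnext hlast ⊢
      simp only [hcl]
      rw [stepOK_append, stepOK_append, stepOK_append, stepOK_append]
      refine ⟨?_, ?_, ?_, ?_, ?_⟩
      · rcases Nat.lt_or_ge t m with h | h
        · rw [hnext h]
          exact stepOK_trans_st tm.m b code C m hcode hb hC1 _ _
        · rw [stepOK_transCl]
          left
          rw [st_rb]
          simp only [decide_eq_true_eq]
          omega
      · rw [stepOK_bdCl]
        intro i hi e he
        rw [hes', List.mem_map] at he
        obtain ⟨k, -, rfl⟩ := he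
        rw [st_fb code C m hcode]
        show ((C t).stk k)[N w + i]? = none
        rw [List.getElem?_eq_none_iff]
        have := hspace t k
        simp only [hN]
        exact this.trans (by omega)
      · exact stepOK_clk_st code C m ht hmT _ fun h => by rw [hnext h]
      · rw [stepOK_initCl]
        rcases Nat.lt_or_ge t m with h | h
        · have h1 : st code C m t rb = false := by
            rw [st_rb]
            simp only [decide_eq_false_iff_not]
            omega
          exact ⟨Or.inl h1, fun i _ => ⟨fun e _ => Or.inl h1, Or.inl h1⟩⟩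
        · rw [hlast h]
          refine ⟨Or.inr ?_, fun i hi => ⟨fun e he => Or.inr ?_, Or.inr ?_⟩⟩
          · rw [hs0, st_fb code C m hcode]
            exact ⟨rfl, rfl⟩
          · rw [hes, List.mem_map] at he
            obtain ⟨k, hk, rfl⟩ := he
            have hk' : k ≠ tm.k₀ := by simpa using hk
            rw [st_fb code C m hcode]
            show (I.stk k)[i]? = none
            rw [hI, initList_stk_ne tm _ hk']
            rfl
          · rw [← hcode_cell i, st_fb code C m hcode]
            rfl
      · rw [stepOK_haltCl]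
        intro q hq
        rcases Nat.lt_or_ge t m with h | h
        · left
          rw [st_rb]
          simp only [decide_eq_false_iff_not]
          omega
        · right
          have h1 : t = m := by omega
          rw [h1]
          rw [hqs, List.mem_cons] at hq
          rcases hq with rfl | hq
          · rw [ho0, st_fb_false code C m hcode, hCm]
            intro h2
            have h3 : (E.stk tm.k₁)[0]? = some (oa.symm false) := h2
            rw [hE, haltList_stk_self, hw] at h3
            simp at h3
          · rw [List.mem_map] at hq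
            obtain ⟨x, -, rfl⟩ := hq
            rw [st_fb_false code C m hcode, hCm]
            rintro ⟨-, h2⟩
            have h3 : some x.1 = E.l := congrArg Prod.fst h2
            rw [hEl] at h3
            simp at h3
    · rintro ⟨s, hs⟩
      simp only [hcl, stepOK_append] at hs
      obtain ⟨r, t, hr, hg⟩ := sound_run tm.m b code hb (N := N w) (T := T w) (es := es') (s := s)
        (by simp only [hN]; omega)
        (fun k => by
          rw [hes', List.mem_map]
          exact ⟨k, by simp, rfl⟩)
        (fun r => (hs r).1) (fun r => (hs r).2.1) (fun r => (hs r).2.2.1) I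
        (fun r hr => by
          have h1 := (hs r).2.2.2.1
          rw [stepOK_initCl] at h1
          simp only [hr, Bool.true_eq_false, false_or] at h1
          refine ⟨h1.1, fun k i hi => ?_⟩
          by_cases hk : k = tm.k₀
          · subst hk
            rw [hcode_cell i]
            exact (h1.2 i hi).2
          · rw [hI, initList_stk_ne tm _ hk]
            exact (h1.2 i hi).1 _ (by
              rw [hes, List.mem_map]
              exact ⟨k, by simpa using hk, rfl⟩))
        (fun t k => (hspace t k).trans (by simp only [hN]; omega))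
      have h1 := (hs r).2.2.2.2
      rw [stepOK_haltCl] at h1
      simp only [hr, Bool.true_eq_false, false_or] at h1
      have h2 : ((stepH tm.m)^[t] I).l = none := by
        cases h3 : ((stepH tm.m)^[t] I).l with
        | none => rfl
        | some l =>
          exfalso
          have h4 := h1 (code (.inl (some l, ((stepH tm.m)^[t] I).var))) (by
            rw [hqs]
            refine List.mem_cons_of_mem _ (List.mem_map.2 ⟨(l, ((stepH tm.m)^[t] I).var), ?_, rfl⟩)
            simp)
          have h5 := hg.1
          rw [h3, h4] at h5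
          simp at h5
      have h3 := run_halted tm.m hm' hEl h2
      cases hb'' : b' with
      | true => rfl
      | false =>
        exfalso
        have h4 := h1 o0 (by rw [hqs]; exact List.mem_cons_self)
        have h5 := hg.2 tm.k₁ 0 (by simp only [hN]; omega)
        rw [h3, hE, haltList_stk_self, hb''] at h5
        have h6 : s r (fb 0 o0) = true := h5
        rw [h4] at h6
        simp at h6

end Pool.Agent.Work.MP_a392d0_lc.M1
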