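import Pool.Agent.Work.MP_a392d0_lc.Interface
import Pool.Agent.Work.TMLib.CookLevin
import Mathlib.Data.Nat.Bitwise
import Mathlib.Tactic

/-!
Block M1, part a: the clauses of the transition system, their semantics, and polynomial time.
-/

namespace Pool.Agent.Work.MP_a392d0_lc.M1

open Pool.Agent.Work.TMLib Turing Polynomial

/-- The bit for fact number `c` at position `i`. -/
def fb (i c : ℕ) : ℕ := Nat.pair 0 (Nat.pair i c)

/-- The reset bit. -/
def rb : ℕ := Nat.pair 1 0

/-- The bits of the clock. -/
def cb (j : ℕ) : ℕ := Nat.pair 2 j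

/-- The bits selecting a bit of the clock. -/
def pb (j : ℕ) : ℕ := Nat.pair 3 j

/-- The instance of a literal template at position `i`. -/
def ltLit (i : ℕ) (x : LT) : Lit :=
  (decide (x.1 = 1), fb (x.2.1 * i + x.2.2.1) x.2.2.2.1, x.2.2.2.2)

/-- The clauses for the transitions. -/
def transCl (ts : List (List LT)) (H : ℕ) : Cl :=
  (List.range H).flatMap fun i => ts.map fun c => (false, rb, true) :: c.map (ltLit i)

/-- The cells at the positions from `N` on are empty. -/
def bdCl (es : List ℕ) (N b : ℕ) : Cl :=
  (List.range b).flatMap fun i => es.map fun e => [(false, fb (N + i) e, true)]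

/-- The clauses for the clock. -/
def clkCl (T : ℕ) : Cl :=
  ((false, rb, true) :: (List.range T).map fun j => (false, pb j, true)) ::
  (List.range T).flatMap fun j =>
    [[(false, rb, true), (false, pb j, false), (false, cb j, false)],
      [(false, rb, true), (false, pb j, false), (true, cb j, true)]] ++
    (List.range T).flatMap fun i =>
      [[(false, rb, true), (false, pb j, false), (false, cb (j + 1 + i), false),
        (true, cb (j + 1 + i), true)],
      [(false, rb, true), (false, pb j, false), (false, cb (j + 1 + i), true),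
        (true, cb (j + 1 + i), false)]]

/-- The clauses saying that after a reset we are in the initial configuration. -/
def initCl (s : ℕ) (es : List ℕ) (c0 c1 d : ℕ) (w : List Bool) (H : ℕ) : Cl :=
  [(false, rb, false), (true, fb 0 s, true)] ::
  (List.range H).flatMap fun i =>
    (es.map fun e => [(false, rb, false), (true, fb i e, true)]) ++
    [[(false, rb, false), (true, fb i
      (if i < w.length then (bif w.getD i false then c1 else c0) else d), true)]]

/-- The clauses saying when a reset is not allowed. -/
def haltCl (qs : List ℕ) : Cl :=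
  qs.map fun q => [(false, rb, false), (false, fb 0 q, false)]

section PolyF

variable {α : Type} [DE α]

@[fun_prop]
theorem PolyF.fb {f g : α → ℕ} (hf : PolyF f) (hg : PolyF g) :
    PolyF (fun a => fb (f a) (g a)) := by
  unfold M1.fb
  fun_prop

@[fun_prop]
theorem PolyF.cb {f : α → ℕ} (hf : PolyF f) : PolyF (fun a => cb (f a)) := by
  unfold M1.cb
  fun_prop

@[fun_prop]
theorem PolyF.pb {f : α → ℕ} (hf : PolyF f) : PolyF (fun a => pb (f a)) := by
  unfold M1.pb
  fun_prop

theorem PolyF.transCl (ts : List (List LT)) {H : α → ℕ} (hH : PolyF H) :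
    PolyF (fun a => M1.transCl ts (H a)) := by
  unfold M1.transCl
  refine PolyF.flatMap (l := fun a => List.range (H a))
    (f := fun a i => ts.map fun c => (false, rb, true) :: c.map (ltLit i)) (by fun_prop) ?_
  refine PolyF.map (l := fun _ : α × ℕ => ts)
    (f := fun p c => (false, rb, true) :: c.map (ltLit p.2)) (by fun_prop) ?_
  refine PolyF.cons (by fun_prop) ?_
  refine PolyF.map (l := fun p : (α × ℕ) × List LT => p.2)
    (f := fun p x => ltLit p.1.2 x) (by fun_prop) ?_
  unfold ltLit
  fun_prop

theorem PolyF.bdCl (es : List ℕ) (b : ℕ) {N : α → ℕ} (hN : PolyF N) :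
    PolyF (fun a => M1.bdCl es (N a) b) := by
  unfold M1.bdCl
  refine PolyF.flatMap (l := fun _ : α => List.range b)
    (f := fun a i => es.map fun e => [(false, M1.fb (N a + i) e, true)])
    (by fun_prop) ?_
  refine PolyF.map (l := fun _ : α × ℕ => es)
    (f := fun p e => [(false, M1.fb (N p.1 + p.2) e, true)]) (by fun_prop) ?_
  fun_prop

theorem PolyF.clkCl {T : α → ℕ} (hT : PolyF T) :
    PolyF (fun a => M1.clkCl (T a)) := by
  unfold M1.clkCl
  refine PolyF.cons ?_ ?_
  · refine PolyF.cons (by fun_prop) ?_
    exact PolyF.map (l := fun a => List.range (T a))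
      (f := fun _ j => (false, M1.pb j, true)) (by fun_prop) (by fun_prop)
  · refine PolyF.flatMap (l := fun a => List.range (T a)) (f := fun a j =>
      [[(false, rb, true), (false, M1.pb j, false), (false, M1.cb j, false)],
        [(false, rb, true), (false, M1.pb j, false), (true, M1.cb j, true)]] ++
      (List.range (T a)).flatMap fun i =>
        [[(false, rb, true), (false, M1.pb j, false),
          (false, M1.cb (j + 1 + i), false), (true, M1.cb (j + 1 + i), true)],
        [(false, rb, true), (false, M1.pb j, false),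
          (false, M1.cb (j + 1 + i), true),
          (true, M1.cb (j + 1 + i), false)]]) (by fun_prop) ?_
    refine PolyF.append (by fun_prop) ?_
    exact PolyF.flatMap (l := fun p : α × ℕ => List.range (T p.1)) (f := fun p i =>
        [[(false, rb, true), (false, M1.pb p.2, false),
          (false, M1.cb (p.2 + 1 + i), false),
          (true, M1.cb (p.2 + 1 + i), true)],
        [(false, rb, true), (false, M1.pb p.2, false),
          (false, M1.cb (p.2 + 1 + i), true),
          (true, M1.cb (p.2 + 1 + i), false)]]) (by fun_prop) (by fun_prop)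

theorem PolyF.initCl (s : ℕ) (es : List ℕ) (c0 c1 d : ℕ) {w : α → List Bool} {H : α → ℕ}
    (hw : PolyF w) (hH : PolyF H) :
    PolyF (fun a => M1.initCl s es c0 c1 d (w a) (H a)) := by
  unfold M1.initCl
  refine PolyF.cons (by fun_prop) ?_
  refine PolyF.flatMap (l := fun a => List.range (H a)) (f := fun a i =>
    (es.map fun e => [(false, rb, false), (true, M1.fb i e, true)]) ++
    [[(false, rb, false), (true, M1.fb i
      (if i < (w a).length then (bif (w a).getD i false then c1 else c0) else d), true)]])
    (by fun_prop) ?_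
  refine PolyF.append ?_ ?_
  · exact PolyF.map (l := fun _ : α × ℕ => es)
      (f := fun p e => [(false, rb, false), (true, M1.fb p.2 e, true)])
      (by fun_prop) (by fun_prop)
  · have h1 : PolyF (fun p : α × ℕ =>
        if p.2 < (w p.1).length then (bif (w p.1).getD p.2 false then c1 else c0) else d) :=
      PolyF.ite (c := fun p : α × ℕ => p.2 < (w p.1).length) (by fun_prop) (by fun_prop)
        (by fun_prop)
    refine PolyF.cons (PolyF.cons (by fun_prop) (PolyF.cons ?_ (by fun_prop))) (by fun_prop)
    exact PolyF.pair (by fun_prop) (PolyF.pair (PolyF.fb (by fun_prop) h1) (by fun_prop))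

end PolyF

/-! ### Semantics -/

theorem stepOK_append {a b : Cl} {u v : ℕ → Bool} :
    StepOK (a ++ b) u v ↔ StepOK a u v ∧ StepOK b u v := by
  simp only [StepOK, List.mem_append]
  constructor
  · intro h
    exact ⟨fun c hc => h c (Or.inl hc), fun c hc => h c (Or.inr hc)⟩
  · rintro ⟨h1, h2⟩ c (hc | hc)
    · exact h1 c hc
    · exact h2 c hc

theorem stepOK_cons {c : List Lit} {b : Cl} {u v : ℕ → Bool} :
    StepOK (c :: b) u v ↔ (∃ l ∈ c, LitOK u v l) ∧ StepOK b u v := by
  simp only [StepOK, List.mem_cons, forall_eq_or_imp]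

theorem stepOK_nil {u v : ℕ → Bool} : StepOK [] u v ↔ True := by
  simp [StepOK]

theorem stepOK_flatMap {β : Type} {l : List β} {f : β → Cl} {u v : ℕ → Bool} :
    StepOK (l.flatMap f) u v ↔ ∀ x ∈ l, StepOK (f x) u v := by
  simp only [StepOK, List.mem_flatMap]
  constructor
  · intro h x hx c hc
    exact h c ⟨x, hx, hc⟩
  · rintro h c ⟨x, hx, hc⟩
    exact h x hx c hc

theorem stepOK_map {β : Type} {l : List β} {f : β → List Lit} {u v : ℕ → Bool} :
    StepOK (l.map f) u v ↔ ∀ x ∈ l, ∃ y ∈ f x, LitOK u v y := by
  simp only [StepOK, List.mem_map, forall_exists_index, and_imp, forall_apply_eq_imp_iff₂]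

theorem litOK_false {u v : ℕ → Bool} {i : ℕ} {b : Bool} : LitOK u v (false, i, b) ↔ u i = b :=
  Iff.rfl

theorem litOK_true {u v : ℕ → Bool} {i : ℕ} {b : Bool} : LitOK u v (true, i, b) ↔ v i = b :=
  Iff.rfl

/-- The valuation given by two states. -/
def val (u v : ℕ → Bool) (n : ℕ) : Bool :=
  bif decide (n.unpair.1 = 1) then v (Nat.pair 0 n.unpair.2) else u (Nat.pair 0 n.unpair.2)

theorem val_vn_zero (u v : ℕ → Bool) (i c : ℕ) : val u v (vn 0 i c) = u (fb i c) := by
  simp [val, vn, fb]

theorem val_vn_one (u v : ℕ → Bool) (i c : ℕ) : val u v (vn 1 i c) = v (fb i c) := by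
  simp [val, vn, fb]

theorem litOK_ltLit (u v : ℕ → Bool) (i : ℕ) (x : LT) :
    LitOK u v (ltLit i x) ↔ val u v (ltInst 0 i x).1 = (ltInst 0 i x).2 := by
  simp only [LitOK, ltLit, ltInst, val, vn, fb, Nat.unpair_pair, Nat.zero_add]

theorem stepOK_transCl {ts : List (List LT)} {H : ℕ} {u v : ℕ → Bool} :
    StepOK (transCl ts H) u v ↔
      (u rb = true ∨ ∀ c ∈ transCNF ts 1 H, SatC (val u v) c) := by
  rw [transCNF_sat, transCl, stepOK_flatMap]
  simp only [List.mem_range, stepOK_map, List.mem_cons, exists_eq_or_imp, litOK_false]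
  have key : ∀ i c, (∃ y ∈ List.map (ltLit i) c, LitOK u v y) ↔
      SatC (val u v) (c.map (ltInst 0 i)) := by
    intro i c
    simp only [SatC, List.mem_map, exists_exists_and_eq_and, litOK_ltLit]
  constructor
  · intro h
    by_cases hr : u rb = true
    · exact Or.inl hr
    · right
      intro t ht i hi c hc
      obtain rfl : t = 0 := by omega
      rcases h i hi c hc with h1 | h1
      · exact absurd h1 hr
      · exact (key i c).1 h1
  · rintro (h | h) i hi c hc
    · exact Or.inl h
    · right
      exact (key i c).2 (h 0 (by omega) i hi c hc)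

theorem stepOK_bdCl {es : List ℕ} {N b : ℕ} {u v : ℕ → Bool} :
    StepOK (bdCl es N b) u v ↔ ∀ i < b, ∀ e ∈ es, u (fb (N + i) e) = true := by
  rw [bdCl, stepOK_flatMap]
  simp only [List.mem_range, stepOK_map, List.mem_singleton, exists_eq_left, litOK_false]

theorem stepOK_haltCl {qs : List ℕ} {u v : ℕ → Bool} :
    StepOK (haltCl qs) u v ↔ ∀ q ∈ qs, u rb = false ∨ u (fb 0 q) = false := by
  rw [haltCl, stepOK_map]
  simp only [List.mem_cons, List.not_mem_nil, or_false, exists_eq_or_imp, exists_eq_left,
    litOK_false]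

theorem stepOK_initCl {s : ℕ} {es : List ℕ} {c0 c1 d : ℕ} {w : List Bool} {H : ℕ}
    {u v : ℕ → Bool} :
    StepOK (initCl s es c0 c1 d w H) u v ↔
      (u rb = false ∨ v (fb 0 s) = true) ∧
      ∀ i < H, (∀ e ∈ es, u rb = false ∨ v (fb i e) = true) ∧
        (u rb = false ∨
          v (fb i (if i < w.length then (bif w.getD i false then c1 else c0) else d)) = true) := by
  rw [initCl, stepOK_cons, stepOK_flatMap]
  simp only [List.mem_range, stepOK_append, stepOK_map, stepOK_cons, List.mem_cons,
    List.not_mem_nil, or_false, exists_eq_or_imp, exists_eq_left, litOK_false, litOK_true,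
    stepOK_nil, and_true]

theorem stepOK_clkCl {T : ℕ} {u v : ℕ → Bool} :
    StepOK (clkCl T) u v ↔
      (u rb = true ∨ ∃ j < T, u (pb j) = true) ∧
      ∀ j < T, (u rb = true ∨ u (pb j) = false ∨ u (cb j) = false) ∧
        (u rb = true ∨ u (pb j) = false ∨ v (cb j) = true) ∧
        ∀ i < T, (u rb = true ∨ u (pb j) = false ∨ u (cb (j + 1 + i)) = false ∨
            v (cb (j + 1 + i)) = true) ∧
          (u rb = true ∨ u (pb j) = false ∨ u (cb (j + 1 + i)) = true ∨
            v (cb (j + 1 + i)) = false) := by
  rw [clkCl, stepOK_cons, stepOK_flatMap]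
  simp only [List.mem_range, stepOK_append, stepOK_flatMap, stepOK_cons, List.mem_cons,
    List.mem_map, List.not_mem_nil, or_false, exists_eq_or_imp, exists_eq_left, litOK_false,
    litOK_true, stepOK_nil, and_true, exists_exists_and_eq_and, and_assoc]

end Pool.Agent.Work.MP_a392d0_lc.M1
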