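import Pool.Agent.Work.MP_a392d0_lc_h82.M1a
import Mathlib.Tactic

/-!
Block M1, part b: soundness and completeness of the transition system.
-/

namespace Pool.Agent.Work.MP_a392d0_lc.M1

open Pool.Agent.Work.TMLib Turing Polynomial

set_option linter.unusedSectionVars false

/-! ### The clock -/

/-- The value of the clock. -/
def clkVal (T : ℕ) (u : ℕ → Bool) : ℕ := Nat.ofBits (fun j : Fin T => u (cb j))

theorem clkVal_lt (T : ℕ) (u : ℕ → Bool) : clkVal T u < 2 ^ T := Nat.ofBits_lt_two_pow _

theorem clk_lt {T : ℕ} {u v : ℕ → Bool} (h : StepOK (clkCl T) u v) (hr : u rb = false) :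
    clkVal T u < clkVal T v := by
  rw [stepOK_clkCl] at h
  obtain ⟨h1, h2⟩ := h
  simp only [hr, Bool.false_eq_true, false_or] at h1 h2
  obtain ⟨j, hj, hp⟩ := h1
  obtain ⟨h3, h4, h5⟩ := h2 j hj
  simp only [hp, Bool.true_eq_false, false_or] at h3 h4 h5
  refine Nat.lt_of_testBit j ?_ ?_ ?_
  · rw [clkVal, Nat.testBit_ofBits_lt _ _ hj]
    exact h3
  · rw [clkVal, Nat.testBit_ofBits_lt _ _ hj]
    exact h4
  · intro i hi
    by_cases hiT : i < T
    · rw [clkVal, clkVal, Nat.testBit_ofBits_lt _ _ hiT, Nat.testBit_ofBits_lt _ _ hiT]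
      obtain ⟨i', rfl⟩ : ∃ i', i = j + 1 + i' := ⟨i - (j + 1), by omega⟩
      have h6 := h5 i' (by omega)
      show u (cb (j + 1 + i')) = v (cb (j + 1 + i'))
      cases hu : u (cb (j + 1 + i')) <;> cases hv : v (cb (j + 1 + i')) <;> simp_all
    · rw [clkVal, clkVal, Nat.testBit_ofBits_ge _ _ (by omega),
        Nat.testBit_ofBits_ge _ _ (by omega)]

theorem exists_reset {T : ℕ} {s : ℕ → ℕ → Bool}
    (h : ∀ r, StepOK (clkCl T) (s r) (s (r + 1))) (r : ℕ) : ∃ r', r ≤ r' ∧ s r' rb = true := by
  by_contra hne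
  push Not at hne
  have h1 : ∀ k, k ≤ clkVal T (s (r + k)) := by
    intro k
    induction k with
    | zero => exact Nat.zero_le _
    | succ k ih =>
      have h2 : s (r + k) rb = false := by
        have := hne (r + k) (by omega)
        simpa using this
      have h3 := clk_lt (h (r + k)) h2
      have h4 : r + (k + 1) = r + k + 1 := by ring
      rw [h4]
      omega
  have h2 := h1 (2 ^ T)
  have h3 := clkVal_lt T (s (r + 2 ^ T))
  omega

/-- Bit `j` is the highest one changed by the increment of `t`. -/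
def Sel (t j : ℕ) : Prop :=
  t.testBit j = false ∧ (t + 1).testBit j = true ∧ ∀ i, j < i → t.testBit i = (t + 1).testBit i

theorem exists_sel (t : ℕ) : ∃ j, Sel t j := by
  induction t using Nat.strong_induction_on with
  | _ t ih =>
    rcases Nat.even_or_odd' t with ⟨a, ha | ha⟩
    · refine ⟨0, ?_, ?_, ?_⟩
      · rw [ha, Nat.testBit_zero]; simp
      · rw [ha, Nat.testBit_zero]; simp
      · intro i hi
        obtain ⟨i', rfl⟩ : ∃ i', i = i' + 1 := ⟨i - 1, by omega⟩
        rw [Nat.testBit_succ, Nat.testBit_succ]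
        congr 1
        omega
    · obtain ⟨j, h1, h2, h3⟩ := ih a (by omega)
      refine ⟨j + 1, ?_, ?_, ?_⟩
      · rw [Nat.testBit_succ, show t / 2 = a by omega]; exact h1
      · rw [Nat.testBit_succ, show (t + 1) / 2 = a + 1 by omega]; exact h2
      · intro i hi
        obtain ⟨i', rfl⟩ : ∃ i', i = i' + 1 := ⟨i - 1, by omega⟩
        rw [Nat.testBit_succ, Nat.testBit_succ, show t / 2 = a by omega,
          show (t + 1) / 2 = a + 1 by omega]
        exact h3 i' (by omega)

theorem sel_lt {t j T : ℕ} (h : Sel t j) (hT : t + 1 < 2 ^ T) : j < T := by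
  by_contra hj
  have h1 : t + 1 < 2 ^ j := lt_of_lt_of_le hT (Nat.pow_le_pow_right (by norm_num) (by omega))
  have h2 := Nat.testBit_lt_two_pow h1
  rw [h.2.1] at h2
  simp at h2

section Machine

variable {K : Type} [DecidableEq K] [Fintype K] {Γ : K → Type} [∀ k, Fintype (Γ k)]
  {Λ σ : Type} [Fintype Λ] [Fintype σ] (M : Λ → TM2.Stmt Γ Λ σ) (b : ℕ)
  (code : Kind Γ Λ σ → ℕ)

/-- The state and the first `n` positions of all stacks of `c` are correctly described by `u`. -/
def GoodS (u : ℕ → Bool) (n : ℕ) (c : TM2.Cfg Γ Λ σ) : Prop :=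
  u (fb 0 (code (.inl (c.l, c.var)))) = true ∧
    ∀ k, ∀ i < n, u (fb i (code (.inr ⟨k, (c.stk k)[i]?⟩))) = true

theorem good_zero {u v : ℕ → Bool} {n : ℕ} {c : TM2.Cfg Γ Λ σ} :
    Good code (val u v) 0 n c ↔ GoodS code u n c := by
  simp only [Good, GoodS, val_vn_zero]

theorem good_one {u v : ℕ → Bool} {n : ℕ} {c : TM2.Cfg Γ Λ σ} :
    Good code (val u v) 1 n c ↔ GoodS code v n c := by
  simp only [Good, GoodS, val_vn_one]

/-- Soundness of a single step. -/
theorem goodS_step (hb : ∀ l, npop (M l) ≤ b) {u v v' : ℕ → Bool} {N : ℕ} {es : List ℕ}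
    (hN : 0 < N) (hes : ∀ k, code (.inr ⟨k, none⟩) ∈ es)
    (h : StepOK (transCl (templs M b code) (N + b)) u v) (hr : u rb = false)
    (hB : StepOK (bdCl es N b) v v') {c : TM2.Cfg Γ Λ σ}
    (hc : ∀ k, ((stepH M c).stk k).length ≤ N) (hg : GoodS code u (N + b) c) :
    GoodS code v (N + b) (stepH M c) := by
  rw [stepOK_transCl] at h
  rcases h with h | h
  · rw [hr] at h
    simp at h
  · have h1 := good_step M b code hb h ((good_zero code).2 hg) (by omega) (by omega) le_rfl
      (by omega)
    rw [Nat.zero_add, good_one, Nat.add_sub_cancel] at h1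
    refine ⟨h1.1, fun k i hi => ?_⟩
    by_cases hiN : i < N
    · exact h1.2 k i hiN
    · rw [stepOK_bdCl] at hB
      have h2 : ((stepH M c).stk k)[i]? = none := by
        rw [List.getElem?_eq_none_iff]
        exact (hc k).trans (by omega)
      rw [h2]
      have h3 := hB (i - N) (by omega) _ (hes k)
      rw [show N + (i - N) = i by omega] at h3
      exact h3

/-- Soundness. -/
theorem sound_run (hb : ∀ l, npop (M l) ≤ b) {N T : ℕ} {es : List ℕ} {s : ℕ → ℕ → Bool}
    (hN : 0 < N) (hes : ∀ k, code (.inr ⟨k, none⟩) ∈ es)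
    (hT : ∀ r, StepOK (transCl (templs M b code) (N + b)) (s r) (s (r + 1)))
    (hB : ∀ r, StepOK (bdCl es N b) (s r) (s (r + 1)))
    (hC : ∀ r, StepOK (clkCl T) (s r) (s (r + 1))) (c : TM2.Cfg Γ Λ σ)
    (hI : ∀ r, s r rb = true → GoodS code (s (r + 1)) (N + b) c)
    (hsp : ∀ t k, (((stepH M)^[t] c).stk k).length ≤ N) :
    ∃ r t, s r rb = true ∧ GoodS code (s r) (N + b) ((stepH M)^[t] c) := by
  obtain ⟨r1, -, h1⟩ := exists_reset hC 0
  have hex := exists_reset hC (r1 + 1)
  classical
  have hr2 := Nat.find_spec hex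
  have hmin : ∀ r, r1 + 1 ≤ r → r < Nat.find hex → s r rb = false := by
    intro r hr hlt
    have := Nat.find_min hex hlt
    push Not at this
    simpa using this hr
  set r2 := Nat.find hex with hr2def
  have key : ∀ t, r1 + 1 + t ≤ r2 →
      GoodS code (s (r1 + 1 + t)) (N + b) ((stepH M)^[t] c) := by
    intro t
    induction t with
    | zero =>
      intro _
      exact hI r1 h1
    | succ t ih =>
      intro ht
      have h2 := ih (by omega)
      have h3 : s (r1 + 1 + t) rb = false := hmin _ (by omega) (by omega)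
      rw [Function.iterate_succ_apply']
      refine goodS_step M b code hb hN hes (hT (r1 + 1 + t)) h3 (hB _) ?_ h2
      intro k
      have := hsp (t + 1) k
      rwa [Function.iterate_succ_apply'] at this
  refine ⟨r2, r2 - (r1 + 1), hr2.2, ?_⟩
  have h4 := key (r2 - (r1 + 1)) (by omega)
  rwa [show r1 + 1 + (r2 - (r1 + 1)) = r2 by omega] at h4

/-! ### Completeness -/

open Classical in
/-- The state at time `t` of the period. -/
noncomputable def st (C : ℕ → TM2.Cfg Γ Λ σ) (m t n : ℕ) : Bool :=
  if n.unpair.1 = 0 then valOf code (fun _ => C t) (Nat.pair 0 n.unpair.2)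
  else if n.unpair.1 = 1 then decide (t = m)
  else if n.unpair.1 = 2 then t.testBit n.unpair.2
  else decide (Sel t n.unpair.2)

variable (C : ℕ → TM2.Cfg Γ Λ σ) (m : ℕ)

theorem st_fb (hcode : Function.Injective code) (t i : ℕ) (κ : Kind Γ Λ σ) :
    st code C m t (fb i (code κ)) = true ↔ Holds (C t) i κ := by
  simp only [st, fb, Nat.unpair_pair, if_true]
  exact valOf_vn code hcode (fun _ => C t) 0 i κ

theorem st_fb_false (hcode : Function.Injective code) (t i : ℕ) (κ : Kind Γ Λ σ) :
    st code C m t (fb i (code κ)) = false ↔ ¬ Holds (C t) i κ := by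
  rw [← st_fb code C m hcode t i κ]
  simp

theorem st_rb (t : ℕ) : st code C m t rb = decide (t = m) := by
  simp [st, rb]

theorem st_cb (t j : ℕ) : st code C m t (cb j) = t.testBit j := by
  simp [st, cb]

open Classical in
theorem st_pb (t j : ℕ) : st code C m t (pb j) = decide (Sel t j) := by
  simp [st, pb]

theorem val_st (t n : ℕ) (hn : n.unpair.1 ≤ 1) :
    val (st code C m t) (st code C m (t + 1)) n = valOf code (fun j => C (t + j)) n := by
  rcases Nat.le_one_iff_eq_zero_or_eq_one.1 hn with h | h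
  · simp only [val, st, valOf, h, Nat.unpair_pair, if_true, zero_ne_one, decide_false,
      cond_false]
    rw [decide_eq_decide]
    simp only [Nat.unpair_pair, h, Nat.add_zero]
  · simp only [val, st, valOf, h, Nat.unpair_pair, if_true, decide_true, cond_true]
    rw [decide_eq_decide]
    simp only [Nat.unpair_pair, h]

theorem templs_time {d : List LT} (hd : d ∈ templs M b code) {x : LT} (hx : x ∈ d) :
    x.1 ≤ 1 := by
  rw [templs, List.mem_flatMap] at hd
  obtain ⟨⟨q, τ⟩, -, hd⟩ := hd
  have hprem : ∀ y ∈ prem code q τ, y.1 ≤ 1 := by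
    intro y hy
    simp only [prem, List.mem_cons, List.mem_map] at hy
    rcases hy with rfl | ⟨z, -, rfl⟩ <;> simp
  simp only [templ, List.mem_cons, List.mem_append, List.mem_flatMap, List.mem_map] at hd
  rcases hd with rfl | ⟨k, -, j, -, rfl⟩ | ⟨y, -, rfl⟩
  · rcases List.mem_append.1 hx with h | h
    · exact hprem x h
    · rw [List.mem_singleton] at h; subst h; simp
  · rcases List.mem_append.1 hx with h | h
    · exact hprem x h
    · rw [List.mem_singleton] at h; subst h; simp
  · rcases List.mem_append.1 hx with h | h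
    · exact hprem x h
    · simp only [List.mem_cons, List.not_mem_nil, or_false] at h
      rcases h with rfl | rfl <;> simp

theorem stepOK_trans_st (hcode : Function.Injective code) (hb : ∀ l, npop (M l) ≤ b)
    (hC : ∀ t, C (t + 1) = stepH M (C t)) (H t : ℕ) :
    StepOK (transCl (templs M b code) H) (st code C m t) (st code C m (t + 1)) := by
  rw [stepOK_transCl]
  right
  have h1 := sound_step M b code hcode hb (fun j => C (t + j)) (fun j => hC (t + j)) 1 H
  rw [transCNF_sat] at h1 ⊢
  intro t' ht' i hi c hc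
  obtain ⟨l, hl, hv⟩ := h1 t' ht' i hi c hc
  refine ⟨l, hl, ?_⟩
  rw [val_st, hv]
  obtain ⟨x, hx, rfl⟩ := List.mem_map.1 hl
  have h2 := templs_time M b code hc hx
  simp only [ltInst, vn, Nat.unpair_pair]
  omega

theorem stepOK_clk_st {T t : ℕ} (ht : t ≤ m) (hm : m < 2 ^ T) (v : ℕ → Bool)
    (hv : t < m → v = st code C m (t + 1)) :
    StepOK (clkCl T) (st code C m t) v := by
  rw [stepOK_clkCl]
  rcases Nat.eq_or_lt_of_le ht with rfl | hlt
  · simp [st_rb]
  · have hne : t ≠ m := by omega
    rw [hv hlt]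
    simp only [st_rb, hne, decide_false, Bool.false_eq_true, false_or, st_pb, st_cb,
      decide_eq_true_eq, decide_eq_false_iff_not]
    constructor
    · obtain ⟨j, hj⟩ := exists_sel t
      exact ⟨j, sel_lt hj (by omega), hj⟩
    · intro j hj
      by_cases hs : Sel t j
      · refine ⟨Or.inr hs.1, Or.inr hs.2.1, fun i hi => ?_⟩
        have h5 := hs.2.2 (j + 1 + i) (by omega)
        rw [h5]
        cases (t + 1).testBit (j + 1 + i) <;> simp
      · exact ⟨Or.inl hs, Or.inl hs, fun i hi => ⟨Or.inl hs, Or.inl hs⟩⟩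

/-- Distinct configurations with small stacks are counted by bits. -/
theorem count_cfgs (hcode : Function.Injective code) {H CB : ℕ} (hH : 0 < H)
    (hCB : ∀ κ, code κ < CB) (hlen : ∀ t ≤ m, ∀ k, ((C t).stk k).length ≤ H)
    (hinj : ∀ i j, i ≤ m → j ≤ m → C i = C j → i = j) : m < 2 ^ (H * CB) := by
  classical
  let f : Fin (m + 1) → (Fin H × Fin CB → Bool) := fun t x =>
    decide (∃ κ, code κ = x.2.val ∧ Holds (C t) x.1.val κ)
  have hf : Function.Injective f := by
    intro t t' h
    have h1 : ∀ i < H, ∀ κ, Holds (C t) i κ ↔ Holds (C t') i κ := by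
      intro i hi κ
      have h2 := congrFun h (⟨i, hi⟩, ⟨code κ, hCB κ⟩)
      simp only [f, decide_eq_decide] at h2
      have h3 : ∀ t, (∃ κ', code κ' = code κ ∧ Holds (C t) i κ') ↔ Holds (C t) i κ := by
        intro t
        constructor
        · rintro ⟨κ', h4, h5⟩
          rwa [← hcode h4]
        · intro h4
          exact ⟨κ, rfl, h4⟩
      rw [h3, h3] at h2
      exact h2
    have h2 : ((C t).l, (C t).var) = ((C t').l, (C t').var) :=
      ((h1 0 hH (.inl ((C t).l, (C t).var))).1 ⟨rfl, rfl⟩).2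
    have h3 : (C t).stk = (C t').stk := by
      funext k
      refine List.ext_getElem? fun i => ?_
      by_cases hi : i < H
      · exact ((h1 i hi (.inr ⟨k, ((C t).stk k)[i]?⟩)).1 rfl).symm
      · have h4 := hlen t (by omega) k
        have h5 := hlen t' (by omega) k
        rw [List.getElem?_eq_none_iff.2 (by omega), List.getElem?_eq_none_iff.2 (by omega)]
    have h4 : C t = C t' := by
      cases h5 : C t with
      | mk l v S =>
        cases h6 : C t' with
        | mk l' v' S' =>
          rw [h5, h6] at h2 h3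
          simp only [Prod.mk.injEq] at h2 h3
          obtain ⟨h7, h8⟩ := h2
          subst h7 h8 h3
          rfl
    exact Fin.ext (hinj t t' (by omega) (by omega) h4)
  have h := Fintype.card_le_of_injective f hf
  simp only [Fintype.card_fin, Fintype.card_fun, Fintype.card_prod, Fintype.card_bool] at h
  omega

end Machine

end Pool.Agent.Work.MP_a392d0_lc.M1
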